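import Pool.Agent.R86.GG.Final
import Pool.Agent.R86.GG.PartS
import Pool.Agent.R86.GG.PartB
import Pool.Agent.R86.GG.PartC
import Pool.Agent.R86.GG.PartD
import Pool.Agent.R86.GG.PartE
import Pool.Agent.R86.GG.PartF
import Pool.Agent.R86.GG.PartG
import Pool.Agent.R86.GG.PartP
import Pool.Agent.R86.GG.PartI

/-!
# Every strongly acyclic standard gambling game has a uniform value

`X`, `Y` are compact metric spaces, `Γ` and `Λ` are leavable non-expansive gambling houses with
nonempty convex compact values (`IsHouse`), both strongly acyclic (`StronglyAcyclic` for the
maximiser, `StronglyAcyclic'` for the minimiser), and the payoff `u` is continuous. Then the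
uniform value exists at every initial state.

Sketch of the proof. Let `w` be a limit of the discounted values `v_λ`. A recurrence argument shows
that `w` is excessive in `x` and depressive in `y` (Part D), and it satisfies the reachability
condition `w(·, y) ≤ hull ((1 - θ) w(·, y) + θ u(·, y))` for every `θ` in `(0, 1)` (Part E). Strong
acyclicity and a compactness argument give a Lipschitz excessive function `F` which decreases by a
fixed amount along every (multi-stage) transition of Player 1 that leads from a state with
`u ≤ w - ε` to a law at which `u - w` is at least `-ε/2` on average (Part B). Player 1 stays where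
he is as long as `u ≥ w - ε`, and otherwise plays a block of `N` continuous almost optimal
selections for the problem with payoff `(1 - θ) w(·, y) + θ u(·, y)`, `y` being the current state of
Player 2. The loss of `w` in a block is paid by the decrease of `F`, and `F` also bounds the
expected number of stages spent in blocks, uniformly in the number of stages (Parts F, G, P).

Parts: A, P, assembly by helper86; S, B by helper638; C by helper568; D, F by helper644; E, I by
helper980; G by helper715.
-/

open MeasureTheory ProbabilityTheory Set Filter Topology

namespace Pool.Agent.Results.MP_555e58_an.UniformValue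

open Pool.Agent.R86.GG

/-- Every strongly acyclic standard gambling game has a uniform value at every initial state. -/
theorem result (X Y : Type) [MetricSpace X] [CompactSpace X] [MeasurableSpace X] [BorelSpace X]
    [MetricSpace Y] [CompactSpace Y] [MeasurableSpace Y] [BorelSpace Y]
    (Γ : X → Set (ProbabilityMeasure X)) (Λ : Y → Set (ProbabilityMeasure Y))
    (hΓ : IsHouse Γ) (hΛ : IsHouse Λ) (haΓ : StronglyAcyclic Γ) (haΛ : StronglyAcyclic' Λ)
    (u : X × Y → ℝ) (hu : Continuous u) (z : X × Y) :
    ∃ v, IsUniformValue u Γ Λ z v :=
  main_of partC (partD (partB partS)) partE (partP (partB partS) partF partG) partI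
    X Y Γ Λ hΓ hΛ haΓ haΛ u hu z

end Pool.Agent.Results.MP_555e58_an.UniformValue
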